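import Pool.Agent.W2helper45.UC.Stm

/-!
# Relations in the Chow ring of the uniform matroid
-/

set_option autoImplicit false

namespace Pool.Agent.W2helper92.UC

open Pool.Agent.W2helper45.UC
open Pool.Agent.X153.CH (flats rk chains chowSeries)

section
variable {n r : ℕ} {A : Type} [CommRing A] {x : Finset (Fin n) → A}

/-- multiplying by `x H` only the flats above `G ∪ H` matter -/
theorem mul_up (hx : Rel r x) {G H G' : Finset (Fin n)} (hGH : ¬ G ⊆ H)
    (hG' : G' = if (G ∪ H).card < r then G ∪ H else Finset.univ) :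
    x H * ∑ K : Finset (Fin n) with G ⊆ K, x K = x H * ∑ K : Finset (Fin n) with G' ⊆ K, x K := by
  rw [Finset.mul_sum, Finset.mul_sum, Finset.sum_filter, Finset.sum_filter]
  refine Finset.sum_congr rfl fun K _ => ?_
  have hsub : G ∪ H ⊆ G' := by
    rw [hG']
    split_ifs
    · exact Finset.Subset.refl _
    · exact Finset.subset_univ _
  by_cases hK : G' ⊆ K
  · rw [if_pos hK, if_pos (Finset.subset_union_left.trans (hsub.trans hK))]
  · rw [if_neg hK]
    split_ifs with h1
    · by_cases h2 : H ⊆ K
      · have h3 : G ∪ H ⊆ K := Finset.union_subset h1 h2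
        have h4 : ¬ (G ∪ H).card < r := by
          intro h4
          rw [if_pos h4] at hG'
          exact hK (hG' ▸ h3)
        rw [if_neg h4] at hG'
        have h5 : ¬ IsFl r K := by
          rintro ⟨-, h6 | h6⟩
          · exact h4 ((Finset.card_le_card h3).trans_lt h6)
          · exact hK (by rw [hG', h6])
        rw [hx.zero K h5, mul_zero]
      · exact hx.inc H K h2 fun h3 => hGH (h1.trans h3)
    · rfl

theorem pow_up {a u v : A} (h : a * u = a * v) (k : ℕ) : a * u ^ k = a * v ^ k := by
  obtain ⟨w, hw⟩ := sub_dvd_pow_sub_pow u v k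
  have h1 : a * (u ^ k - v ^ k) = 0 := by
    rw [hw, ← mul_assoc, mul_sub, h, sub_self, zero_mul]
  rw [mul_sub] at h1
  exact sub_eq_zero.1 h1

end

/-- **REL.** -/
theorem p_rel : P_REL := by
  classical
  intro n r A _ x hx hr hrn
  suffices key : ∀ d : ℕ, ∀ F G : Finset (Fin n), (F = ∅ ∨ IsFl r F) → IsFl r G → F ⊂ G →
      rk r G - rk r F = d →
      (if F = ∅ then 1 else x F) * (∑ H : Finset (Fin n) with G ⊆ H, x H) ^ d = 0 from
    fun F G hF hG hFG => key _ F G hF hG hFG rfl
  intro d
  induction d using Nat.strong_induction_on with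
  | _ d ih =>
  intro F G hF hG hFG hd
  have hcard := Finset.card_lt_card hFG
  have hFr : F.card < r := by
    rcases hF with h | ⟨-, h | h⟩
    · rw [h, Finset.card_empty]
      exact hr
    · exact h
    · rw [h] at hFG
      exact absurd (Finset.subset_univ G) hFG.2
  have hrkG : F.card < rk r G := by
    unfold rk
    exact lt_min hcard hFr
  have hrkF : rk r F = F.card := min_eq_left hFr.le
  obtain ⟨e, rfl⟩ : ∃ e, d = e + 1 := Nat.exists_eq_succ_of_ne_zero (by omega)
  obtain ⟨i, hiG, hiF⟩ := Finset.exists_of_ssubset hFG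
  have hc : ∀ H, i ∈ H → ¬ F ⊆ H → (if F = ∅ then 1 else x F) * x H = 0 := by
    intro H hi hFH
    rw [if_neg (by rintro rfl; exact hFH (Finset.empty_subset _))]
    exact hx.inc F H hFH fun h => hiF (h hi)
  generalize (if F = ∅ then (1 : A) else x F) = c at hc ⊢
  have h1 : c * ∑ H : Finset (Fin n) with G ⊆ H, x H =
      - ∑ H ∈ (Finset.univ.filter fun H : Finset (Fin n) => i ∈ H) with ¬ G ⊆ H, c * x H := by
    have h2 := Finset.sum_filter_add_sum_filter_not
      (Finset.univ.filter fun H : Finset (Fin n) => i ∈ H) (fun H => G ⊆ H) fun H => c * x H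
    rw [← Finset.mul_sum, ← Finset.mul_sum, ← Finset.mul_sum, hx.lin i, mul_zero] at h2
    have h3 : ((Finset.univ.filter fun H : Finset (Fin n) => i ∈ H).filter fun H => G ⊆ H) =
        Finset.univ.filter fun H : Finset (Fin n) => G ⊆ H := by
      ext H
      simp only [Finset.mem_filter, Finset.mem_univ, true_and]
      exact ⟨fun h => h.2, fun h => ⟨h hiG, h⟩⟩
    rw [h3] at h2
    rw [← Finset.mul_sum]
    exact eq_neg_of_add_eq_zero_left h2
  rw [pow_succ', ← mul_assoc, h1, neg_mul, Finset.sum_mul, neg_eq_zero]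
  refine Finset.sum_eq_zero fun H hH => ?_
  simp only [Finset.mem_filter, Finset.mem_univ, true_and] at hH
  obtain ⟨hiH, hGH⟩ := hH
  by_cases hFH : F ⊆ H
  swap
  · rw [hc H hiH hFH, zero_mul]
  by_cases hfl : IsFl r H
  swap
  · rw [hx.zero H hfl, mul_zero, zero_mul]
  have hHr : H.card < r := by
    rcases hfl.2 with h | h
    · exact h
    · exact absurd (h ▸ Finset.subset_univ G) hGH
  set G' : Finset (Fin n) := if (G ∪ H).card < r then G ∪ H else Finset.univ with hG'
  have hsub : G ∪ H ⊆ G' := by
    rw [hG']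
    split_ifs
    · exact Finset.Subset.refl _
    · exact Finset.subset_univ _
  have hG'fl : IsFl r G' := by
    refine ⟨⟨i, hsub (Finset.mem_union_left _ hiG)⟩, ?_⟩
    rw [hG']
    split_ifs with h
    · exact Or.inl h
    · exact Or.inr rfl
  have hHG' : H ⊂ G' := ⟨Finset.subset_union_right.trans hsub, fun h =>
    hGH ((Finset.subset_union_left.trans hsub).trans h)⟩
  have hrkH : rk r H = H.card := min_eq_left hHr.le
  have hrkG' : rk r G' ≤ rk r G + H.card - (F.card + 1) := by
    have h4 := Finset.card_union_add_card_inter G H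
    have h5 : F.card + 1 ≤ (G ∩ H).card := by
      rw [← Finset.card_insert_of_notMem hiF]
      apply Finset.card_le_card
      intro j hj
      rcases Finset.mem_insert.1 hj with rfl | hj
      · exact Finset.mem_inter.2 ⟨hiG, hiH⟩
      · exact Finset.mem_inter.2 ⟨hFG.1 hj, hFH hj⟩
    have h6 : F.card + 1 ≤ H.card := h5.trans (Finset.card_le_card Finset.inter_subset_right)
    have h7 : rk r G' ≤ r := min_le_right _ _
    have h8 : (G ∪ H).card < r → rk r G' ≤ (G ∪ H).card := by
      intro h
      rw [hG', if_pos h]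
      exact min_le_left _ _
    rcases hG.2 with h | h
    · have h9 : rk r G = G.card := min_eq_left h.le
      rw [h9]
      by_cases h10 : (G ∪ H).card < r
      · have := h8 h10
        omega
      · omega
    · have h9 : rk r G = r := by
        unfold rk
        rw [h, Finset.card_univ, Fintype.card_fin]
        exact min_eq_right hrn
      rw [h9]
      omega
  have h4 : rk r G' - rk r H < e + 1 := by
    rw [hrkH]
    rw [hrkF] at hd
    omega
  have h5 := ih _ h4 H G' (Or.inr hfl) hG'fl hHG' rfl
  rw [if_neg hfl.1.ne_empty] at h5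
  rw [mul_assoc, pow_up (mul_up hx hGH hG') e]
  obtain ⟨k, hk⟩ := Nat.exists_eq_add_of_le (Nat.lt_succ_iff.1 h4)
  rw [hk, pow_add, ← mul_assoc (x H), h5, zero_mul, mul_zero]

end Pool.Agent.W2helper92.UC
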